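import Mathlib
import Pool.Agent.H43R3.SumG.Union

/-!
Sum labellings of the disjoint union of two graphs `GG τ` with one extra label: the labels of each
side are the multiples `c s`, `s ∈ inS τ`, of the standard labels (extracted from the proof of
`H43R3.SumG.union_false`), without arithmetic hypotheses on the two parameters.
-/

set_option autoImplicit false

namespace Y643.SL

open H43R3.SumG

/-- What rigidity gives for a labelling of the disjoint union with one extra label `z`. -/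
structure Out (τ1 τ2 : ℕ) (gA gB : ℕ → ℚ) (z : ℚ) (L : Set ℚ) (cA cB : ℚ) : Prop where
  hcA : 0 < cA
  hcB : 0 < cB
  A1 : ∀ s, inS τ1 s → ∃ s', inS τ1 s' ∧ gA s = cA * s' ∧ (s % 2 = 0 → s' % 2 = 0)
  A2 : ∀ s', inS τ1 s' → ∃ s, inS τ1 s ∧ gA s = cA * s'
  B1 : ∀ s, inS τ2 s → ∃ s', inS τ2 s' ∧ gB s = cB * s' ∧ (s % 2 = 0 → s' % 2 = 0)
  B2 : ∀ s', inS τ2 s' → ∃ s, inS τ2 s ∧ gB s = cB * s'
  K1 : ∀ n m : ℕ, inS τ1 n → inS τ2 m → cA * n ≠ cB * m
  K2 : ∀ n m : ℕ, inS τ1 n → inS τ2 m → cA * n + cB * m ∉ L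
  K3 : ∀ n : ℕ, inT τ1 n → cA * n ∈ L
  K4 : ∀ m : ℕ, inT τ2 m → cB * m ∈ L
  TA : (∃ m : ℕ, inS τ2 m ∧ cA * (16*τ1) = cB * m) ∨ cA * (16*τ1) = z
  TB : (∃ n : ℕ, inS τ1 n ∧ cB * (16*τ2) = cA * n) ∨ cB * (16*τ2) = z

theorem two_sides {τ1 τ2 : ℕ} (hτ2 : 2000 ≤ τ2) (hτ1 : 100*((16*τ2+5)+10) ≤ τ1)
    {gA gB : ℕ → ℚ} {z : ℚ} {L : Set ℚ}
    (hL : ∀ w, w ∈ L ↔ (∃ s, inS τ1 s ∧ w = gA s) ∨ (∃ s, inS τ2 s ∧ w = gB s) ∨ w = z)
    (posA : ∀ s, inS τ1 s → 0 < gA s) (posB : ∀ s, inS τ2 s → 0 < gB s)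
    (injA : ∀ s s', inS τ1 s → inS τ1 s' → gA s = gA s' → s = s')
    (injB : ∀ s s', inS τ2 s → inS τ2 s' → gB s = gB s' → s = s')
    (hAB : ∀ s s', inS τ1 s → inS τ2 s' → gA s ≠ gB s')
    (adjA : ∀ s s', inS τ1 s → inS τ1 s' → s ≠ s' → (gA s + gA s' ∈ L ↔ inT τ1 (s + s')))
    (adjB : ∀ s s', inS τ2 s → inS τ2 s' → s ≠ s' → (gB s + gB s' ∈ L ↔ inT τ2 (s + s')))
    (cross : ∀ s s', inS τ1 s → inS τ2 s' → gA s + gB s' ∉ L)
    (zA : ∀ s, inS τ1 s → z + gA s ∉ L) (zB : ∀ s, inS τ2 s → z + gB s ∉ L) :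
    ∃ cA cB : ℚ, Out τ1 τ2 gA gB z L cA cB := by
  classical
  have memA : ∀ s, inS τ1 s → gA s ∈ L := fun s hs => (hL _).2 (Or.inl ⟨s, hs, rfl⟩)
  have memB : ∀ s, inS τ2 s → gB s ∈ L := fun s hs => (hL _).2 (Or.inr (Or.inl ⟨s, hs, rfl⟩))
  have SA : Side τ1 gA L :=
    { pos := posA
      inj := injA
      mem := memA
      adj := adjA
      dead := by
        intro w hw hn s hs
        rcases (hL w).1 hw with ⟨s', hs', h1⟩ | ⟨s', hs', h1⟩ | h1
        · exact absurd h1 (hn s' hs')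
        · rw [h1, add_comm]; exact cross s s' hs hs'
        · rw [h1]; exact zA s hs }
  have SB : Side τ2 gB L :=
    { pos := posB
      inj := injB
      mem := memB
      adj := adjB
      dead := by
        intro w hw hn s hs
        rcases (hL w).1 hw with ⟨s', hs', h1⟩ | ⟨s', hs', h1⟩ | h1
        · rw [h1]; exact cross s' s hs' hs
        · exact absurd h1 (hn s' hs')
        · rw [h1]; exact zB s hs }
  obtain ⟨cA, hcA, hA1, hA2, hA3⟩ := SA.rigid (e := 16*τ2+5) hτ1 (by
    intro j hj hj' S hS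
    have h1 : S.card ≤ (({gA (2*τ1-3), gA (2*τ1+3), gA (2*τ1+5), gA (14*τ1-3), z} : Finset ℚ) ∪
        ((Finset.range (16*τ2)).image gB)).card := by
      refine Finset.card_le_card_of_injOn (fun i => gA (2*i) + gA (2*j)) ?_ ?_
      · intro i hi
        obtain ⟨h1, h2, h3, h4, h5⟩ := hS i (Finset.mem_coe.1 hi)
        rw [Finset.mem_coe, Finset.mem_union]
        rcases (hL _).1 h4 with ⟨s, hs, h6⟩ | ⟨s, hs, h6⟩ | h6
        · left
          simp only [Finset.mem_insert, Finset.mem_singleton]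
          rcases hs with hs | hs | hs | hs | hs
          · exfalso
            refine h5 (s/2) (by omega) (by omega) ?_
            rw [h6]; congr 1; omega
          · left; rw [h6, hs]
          · right; left; rw [h6, hs]
          · right; right; left; rw [h6, hs]
          · right; right; right; left; rw [h6, hs]
        · right
          rw [Finset.mem_image]
          exact ⟨s, by rw [Finset.mem_range]; unfold inS at hs; omega, h6.symm⟩
        · left
          simp only [Finset.mem_insert, Finset.mem_singleton]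
          right; right; right; right; exact h6
      · intro i hi i' hi' heq
        obtain ⟨h1, h2, _⟩ := hS i (Finset.mem_coe.1 hi)
        obtain ⟨h1', h2', _⟩ := hS i' (Finset.mem_coe.1 hi')
        simp only at heq
        have := injA (2*i) (2*i') (by unfold inS; omega) (by unfold inS; omega) (by linarith)
        omega
    have h2 := Finset.card_union_le
      ({gA (2*τ1-3), gA (2*τ1+3), gA (2*τ1+5), gA (14*τ1-3), z} : Finset ℚ)
      ((Finset.range (16*τ2)).image gB)
    have h3 : ((Finset.range (16*τ2)).image gB).card ≤ 16*τ2 := by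
      have := Finset.card_image_le (s := Finset.range (16*τ2)) (f := gB)
      rwa [Finset.card_range] at this
    have h4 : ({gA (2*τ1-3), gA (2*τ1+3), gA (2*τ1+5), gA (14*τ1-3), z} : Finset ℚ).card ≤ 5 :=
      Finset.card_le_five
    omega)
  obtain ⟨cB, hcB, hB1, hB2, hB3⟩ := SB.rigid (e := 10) (by omega) (by
    intro j hj hj' S hS
    set W : Finset ℚ := ({gB (2*τ2-3), gB (2*τ2+3), gB (2*τ2+5), gB (14*τ2-3), z} : Finset ℚ) ∪
      ({gA (2*τ1-3), gA (2*τ1+3), gA (2*τ1+5), gA (14*τ1-3)} : Finset ℚ) with hW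
    have hWc : W.card ≤ 9 := by
      have h2 := Finset.card_union_le
        ({gB (2*τ2-3), gB (2*τ2+3), gB (2*τ2+5), gB (14*τ2-3), z} : Finset ℚ)
        ({gA (2*τ1-3), gA (2*τ1+3), gA (2*τ1+5), gA (14*τ1-3)} : Finset ℚ)
      have h4 : ({gB (2*τ2-3), gB (2*τ2+3), gB (2*τ2+5), gB (14*τ2-3), z} : Finset ℚ).card ≤ 5 :=
        Finset.card_le_five
      have h5 : ({gA (2*τ1-3), gA (2*τ1+3), gA (2*τ1+5), gA (14*τ1-3)} : Finset ℚ).card ≤ 4 :=
        Finset.card_le_four
      rw [hW]; omega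
    have hinj : ∀ i ∈ S, ∀ i' ∈ S, gB (2*i) = gB (2*i') → i = i' := by
      intro i hi i' hi' heq
      obtain ⟨h1, h2, _⟩ := hS i hi
      obtain ⟨h1', h2', _⟩ := hS i' hi'
      have := injB (2*i) (2*i') (by unfold inS; omega) (by unfold inS; omega) heq
      omega
    have hsum : (S.filter (fun i => gB (2*i) + gB (2*j) ∈ W)).card +
        (S.filter (fun i => ¬ (gB (2*i) + gB (2*j) ∈ W))).card = S.card :=
      Finset.card_filter_add_card_filter_not _
    have h1 : (S.filter (fun i => gB (2*i) + gB (2*j) ∈ W)).card ≤ W.card := by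
      refine Finset.card_le_card_of_injOn (fun i => gB (2*i) + gB (2*j)) ?_ ?_
      · intro i hi
        exact (Finset.mem_filter.1 (Finset.mem_coe.1 hi)).2
      · intro i hi i' hi' heq
        simp only at heq
        exact hinj i (Finset.mem_filter.1 (Finset.mem_coe.1 hi)).1 i'
          (Finset.mem_filter.1 (Finset.mem_coe.1 hi')).1 (by linarith)
    have h2 : (S.filter (fun i => ¬ (gB (2*i) + gB (2*j) ∈ W))).card ≤ 1 := by
      rw [Finset.card_le_one]
      -- each such sum is an even multiple of cA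
      have key : ∀ i ∈ S.filter (fun i => ¬ (gB (2*i) + gB (2*j) ∈ W)),
          ∃ σ : ℕ, inS τ1 σ ∧ σ % 2 = 0 ∧ gB (2*i) + gB (2*j) = cA * σ := by
        intro i hi
        rw [Finset.mem_filter] at hi
        obtain ⟨h1, h2, h3, h4, h5⟩ := hS i hi.1
        have hnW := hi.2
        rw [hW, Finset.mem_union] at hnW
        simp only [Finset.mem_insert, Finset.mem_singleton, not_or] at hnW
        obtain ⟨⟨n1, n2, n3, n4, n5⟩, n6, n7, n8, n9⟩ := hnW
        rcases (hL _).1 h4 with ⟨s, hs, h6⟩ | ⟨s, hs, h6⟩ | h6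
        · obtain ⟨σ, hσ1, hσ2, hσ3⟩ := hA1 s hs
          refine ⟨σ, hσ1, hσ3 ?_, by rw [h6, hσ2]⟩
          rcases hs with hs | hs | hs | hs | hs
          · exact hs.1
          · exact absurd (by rw [h6, hs]) n6
          · exact absurd (by rw [h6, hs]) n7
          · exact absurd (by rw [h6, hs]) n8
          · exact absurd (by rw [h6, hs]) n9
        · exfalso
          rcases hs with hs | hs | hs | hs | hs
          · refine h5 (s/2) (by omega) (by omega) ?_
            rw [h6]; congr 1; omega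
          · exact n1 (by rw [h6, hs])
          · exact n2 (by rw [h6, hs])
          · exact n3 (by rw [h6, hs])
          · exact n4 (by rw [h6, hs])
        · exact absurd h6 n5
      have main : ∀ i ∈ S.filter (fun i => ¬ (gB (2*i) + gB (2*j) ∈ W)),
          ∀ i' ∈ S.filter (fun i => ¬ (gB (2*i) + gB (2*j) ∈ W)),
          ¬ (gB (2*i') < gB (2*i)) := by
        intro i hi i' hi' hlt
        obtain ⟨σ, h1, h2, h3⟩ := key i hi
        obtain ⟨σ', h1', h2', h3'⟩ := key i' hi'
        obtain ⟨a1, a2, _⟩ := hS i (Finset.mem_filter.1 hi).1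
        obtain ⟨b1, b2, _⟩ := hS i' (Finset.mem_filter.1 hi').1
        have h4 : cA * σ' < cA * σ := by rw [← h3, ← h3']; linarith
        have h5 : (σ':ℚ) < σ := lt_of_mul_lt_mul_left h4 hcA.le
        have h6 : σ' < σ := by exact_mod_cast h5
        obtain ⟨s, hs, hs2⟩ := hA2 (σ - σ') (by unfold inS at h1 h1' ⊢; omega)
        apply cross s (2*i') hs (by unfold inS; omega)
        have h7 : gA s + gB (2*i') = gB (2*i) := by
          rw [hs2, Nat.cast_sub h6.le]; linarith
        rw [h7]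
        exact memB _ (by unfold inS; omega)
      intro i hi i' hi'
      apply hinj i (Finset.mem_filter.1 hi).1 i' (Finset.mem_filter.1 hi').1
      exact le_antisymm (not_lt.1 (main i hi i' hi')) (not_lt.1 (main i' hi' i hi))
    omega)
  refine ⟨cA, cB,
    { hcA := hcA
      hcB := hcB
      A1 := hA1
      A2 := hA2
      B1 := hB1
      B2 := hB2
      K1 := ?_
      K2 := ?_
      K3 := ?_
      K4 := ?_
      TA := ?_
      TB := ?_ }⟩
  · intro n m hn hm heq
    obtain ⟨s, hs, hs2⟩ := hA2 n hn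
    obtain ⟨s', hs', hs2'⟩ := hB2 m hm
    exact hAB s s' hs hs' (by rw [hs2, hs2', heq])
  · intro n m hn hm
    obtain ⟨s, hs, hs2⟩ := hA2 n hn
    obtain ⟨s', hs', hs2'⟩ := hB2 m hm
    rw [← hs2, ← hs2']
    exact cross s s' hs hs'
  · intro n hn
    rcases hn with hn | hn
    · obtain ⟨s, hs, hs2⟩ := hA2 n hn
      rw [← hs2]; exact memA s hs
    · rw [hn]; push_cast; exact hA3
  · intro n hn
    rcases hn with hn | hn
    · obtain ⟨s, hs, hs2⟩ := hB2 n hn
      rw [← hs2]; exact memB s hs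
    · rw [hn]; push_cast; exact hB3
  · rcases (hL _).1 hA3 with ⟨s, hs, h6⟩ | ⟨s, hs, h6⟩ | h6
    · exfalso
      obtain ⟨σ, h1, h2, _⟩ := hA1 s hs
      rw [h2] at h6
      have h7 := mul_left_cancel₀ hcA.ne' h6
      have h8 : 16*τ1 = σ := by exact_mod_cast h7
      unfold inS at h1
      omega
    · left
      obtain ⟨σ, h1, h2, _⟩ := hB1 s hs
      exact ⟨σ, h1, by rw [h6, h2]⟩
    · right; exact h6
  · rcases (hL _).1 hB3 with ⟨s, hs, h6⟩ | ⟨s, hs, h6⟩ | h6
    · left
      obtain ⟨σ, h1, h2, _⟩ := hA1 s hs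
      exact ⟨σ, h1, by rw [h6, h2]⟩
    · exfalso
      obtain ⟨σ, h1, h2, _⟩ := hB1 s hs
      rw [h2] at h6
      have h7 := mul_left_cancel₀ hcB.ne' h6
      have h8 : 16*τ2 = σ := by exact_mod_cast h7
      unfold inS at h1
      omega
    · right; exact h6

end Y643.SL
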