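import Mathlib
import Pool.Agent.Y643.SL.Two

/-!
Arithmetic: if the parameters of the two sides satisfy coprimality conditions, then both scaling
factors are large.
-/

set_option autoImplicit false

namespace Y643.SL

open H43R3.SumG

/-- The coprimality conditions on the parameters `q` (large side) and `p` (small side). -/
structure Cop (q p : ℕ) : Prop where
  hp : 2000 ≤ p
  hq : 100*((16*p+5)+10) ≤ q
  m1 : Nat.Coprime (2*p-3) (16*q)
  m2 : Nat.Coprime (2*p+3) (16*q)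
  m3 : Nat.Coprime (2*p+5) (16*q)
  m4 : Nat.Coprime (14*p-3) (16*q)
  n1 : Nat.Coprime (2*q-3) (16*p)
  n2 : Nat.Coprime (2*q+3) (16*p)
  n3 : Nat.Coprime (2*q+5) (16*p)
  n4 : Nat.Coprime (14*q-3) (16*p)

theorem large {q p : ℕ} (h : Cop q p) {a b : ℕ} {z : ℚ} {L : Set ℚ} (ha : 0 < a) (hb : 0 < b)
    (K1 : ∀ n m : ℕ, inS q n → inS p m → (a:ℚ) * n ≠ b * m)
    (K2 : ∀ n m : ℕ, inS q n → inS p m → (a:ℚ) * n + b * m ∉ L)
    (K3 : ∀ n : ℕ, inT q n → (a:ℚ) * n ∈ L) (K4 : ∀ m : ℕ, inT p m → (b:ℚ) * m ∈ L)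
    (hTA : (∃ m : ℕ, inS p m ∧ (a:ℚ) * (16*q) = b * m) ∨ (a:ℚ) * (16*q) = z)
    (hTB : (∃ n : ℕ, inS q n ∧ (b:ℚ) * (16*p) = a * n) ∨ (b:ℚ) * (16*p) = z) :
    p ≤ a ∧ p ≤ b ∧ (p:ℚ) ≤ z := by
  have hp := h.hp
  have hq := h.hq
  have hodd : ∀ n m : ℕ, n % 2 = 1 → n ≤ 8*q → inS p m → (b:ℚ) * m = a * n → False := by
    intro n m hn hn2 hm heq
    apply K2 (2*q-3) m (by unfold inS; omega) hm
    rw [heq]
    have := K3 (2*q-3+n) (by unfold inT inS; omega)
    convert this using 1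
    push_cast; ring
  have hodd' : ∀ n m : ℕ, m % 2 = 1 → m ≤ 8*p → inS q n → (a:ℚ) * n = b * m → False := by
    intro n m hn hn2 hm heq
    apply K2 n (2*p-3) hm (by unfold inS; omega)
    rw [heq]
    have := K4 (2*p-3+m) (by unfold inT inS; omega)
    convert this using 1
    push_cast; ring
  -- the top of the side `p` is not an even multiple of `a`
  have evI : ∀ n : ℕ, inT q n → n % 2 = 0 → (b:ℚ) * (16*p) = a * n → False := by
    intro n hn hpar heq
    obtain ⟨n', hn'⟩ : ∃ n', n = 2*n' := ⟨n/2, by omega⟩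
    have hle : 1 ≤ n' ∧ n' ≤ 8*q := by
      unfold inT inS at hn; omega
    have h1 : (b:ℚ) * ((8*p : ℕ):ℚ) = a * n' := by
      rw [hn'] at heq; push_cast at heq ⊢; linarith
    by_cases hp2 : n' % 2 = 0
    · exact K1 n' (8*p) (by unfold inS; omega) (by unfold inS; omega) h1.symm
    · exact hodd n' (8*p) (by omega) hle.2 (by unfold inS; omega) h1
  have evII : ∀ m : ℕ, inS p m → m % 2 = 0 → (a:ℚ) * (16*q) = b * m → False := by
    intro m hm hpar heq
    obtain ⟨m', hm'⟩ : ∃ m', m = 2*m' := ⟨m/2, by omega⟩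
    have hle : 1 ≤ m' ∧ m' ≤ 8*p := by
      unfold inS at hm; omega
    have h1 : (a:ℚ) * ((8*q : ℕ):ℚ) = b * m' := by
      rw [hm'] at heq; push_cast at heq ⊢; linarith
    by_cases hp2 : m' % 2 = 0
    · exact K1 (8*q) m' (by unfold inS; omega) (by unfold inS; omega) h1
    · exact hodd' (8*q) m' (by omega) hle.2 (by unfold inS; omega) h1
  -- odd coincidences
  have odI : ∀ n : ℕ, inS q n → (b:ℚ) * (16*p) = a * n → p ≤ a ∧ p ≤ b := by
    intro n hn heq
    have hcop : Nat.Coprime n (16*p) ∧ 2*q-3 ≤ n := by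
      have hn0 := hn
      simp only [inS] at hn0
      rcases hn0 with hn1 | hn1 | hn1 | hn1 | hn1
      · exact (evI n (Or.inl hn) hn1.1 heq).elim
      · rw [hn1]; exact ⟨h.n1, le_refl _⟩
      · rw [hn1]; exact ⟨h.n2, by omega⟩
      · rw [hn1]; exact ⟨h.n3, by omega⟩
      · rw [hn1]; exact ⟨h.n4, by omega⟩
    have heqN : b * (16*p) = a * n := by exact_mod_cast heq
    have d1 : n ∣ b := by
      have : n ∣ b * (16*p) := by rw [heqN]; exact Dvd.intro_left _ rfl
      exact hcop.1.dvd_of_dvd_mul_right this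
    have d2 : 16*p ∣ a := by
      have : 16*p ∣ a * n := by rw [← heqN]; exact Dvd.intro_left _ rfl
      exact hcop.1.symm.dvd_of_dvd_mul_right this
    have e1 := Nat.le_of_dvd hb d1
    have e2 := Nat.le_of_dvd ha d2
    constructor <;> omega
  have odII : ∀ m : ℕ, inS p m → (a:ℚ) * (16*q) = b * m → p ≤ a ∧ p ≤ b := by
    intro m hm heq
    have hcop : Nat.Coprime m (16*q) ∧ 2*p-3 ≤ m := by
      have hm0 := hm
      simp only [inS] at hm0
      rcases hm0 with hn1 | hn1 | hn1 | hn1 | hn1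
      · exact (evII m hm hn1.1 heq).elim
      · rw [hn1]; exact ⟨h.m1, le_refl _⟩
      · rw [hn1]; exact ⟨h.m2, by omega⟩
      · rw [hn1]; exact ⟨h.m3, by omega⟩
      · rw [hn1]; exact ⟨h.m4, by omega⟩
    have heqN : a * (16*q) = b * m := by exact_mod_cast heq
    have d1 : m ∣ a := by
      have : m ∣ a * (16*q) := by rw [heqN]; exact Dvd.intro_left _ rfl
      exact hcop.1.dvd_of_dvd_mul_right this
    have d2 : 16*q ∣ b := by
      have : 16*q ∣ b * m := by rw [← heqN]; exact Dvd.intro_left _ rfl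
      exact hcop.1.symm.dvd_of_dvd_mul_right this
    have e1 := Nat.le_of_dvd ha d1
    have e2 := Nat.le_of_dvd hb d2
    constructor <;> omega
  have main : p ≤ a ∧ p ≤ b := by
    rcases hTA with ⟨m, hm, hm2⟩ | hTA
    · exact odII m hm hm2
    · rcases hTB with ⟨n, hn, hn2⟩ | hTB
      · exact odI n hn hn2
      · refine (evI (16*q) (Or.inr rfl) (by omega) ?_).elim
        rw [hTB, ← hTA]; push_cast; ring
  refine ⟨main.1, main.2, ?_⟩
  have hpq : (2000:ℚ) ≤ p := by exact_mod_cast hp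
  have hqq : (2000:ℚ) ≤ q := by exact_mod_cast (by omega : 2000 ≤ q)
  have haq : (p:ℚ) ≤ a := by exact_mod_cast main.1
  have hbq : (p:ℚ) ≤ b := by exact_mod_cast main.2
  rcases hTA with ⟨m, hm, hm2⟩ | hTA
  · rcases hTB with ⟨n, hn, hn2⟩ | hTB
    · exfalso
      have hm16 : (m:ℚ) < 16*p := by
        have : m < 16*p := by unfold inS at hm; omega
        exact_mod_cast this
      have hn16 : (n:ℚ) < 16*q := by
        have : n < 16*q := by unfold inS at hn; omega
        exact_mod_cast this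
      have haq0 : (0:ℚ) < a := by linarith
      have hbq0 : (0:ℚ) < b := by linarith
      have i1 : (b:ℚ) * m < b * (16*p) := mul_lt_mul_of_pos_left hm16 hbq0
      have i2 : (a:ℚ) * n < a * (16*q) := mul_lt_mul_of_pos_left hn16 haq0
      linarith
    · rw [← hTB]; nlinarith
  · rw [← hTA]; nlinarith

/-- Parameters satisfying the conditions. -/
theorem exists_cop (N : ℕ) : ∃ q p : ℕ, N < p ∧ p = 385*N + 2311 ∧ q ≤ 3038001*p^5 ∧ Cop q p := by
  obtain ⟨p, hp⟩ : ∃ p, p = 1 + 385*(N+6) := ⟨_, rfl⟩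
  obtain ⟨K, hK⟩ : ∃ K, K = (2*p-3)*((2*p+3)*((2*p+5)*(14*p-3))) := ⟨_, rfl⟩
  obtain ⟨q, hq⟩ : ∃ q, q = 1 + 3100*(p*K) := ⟨_, rfl⟩
  have hp2 : 2311 ≤ p := by omega
  have hK1 : 1 ≤ K := by
    rw [hK]
    have h1 : 0 < 2*p-3 := by omega
    have h2 : 0 < 2*p+3 := by omega
    have h3 : 0 < 2*p+5 := by omega
    have h4 : 0 < 14*p-3 := by omega
    exact Nat.mul_pos h1 (Nat.mul_pos h2 (Nat.mul_pos h3 h4))
  have hpK : p ≤ p*K := Nat.le_mul_of_pos_right _ hK1
  -- coprimality of a divisor of `K` with `q`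
  have cK : ∀ m, m ∣ K → Nat.Coprime m q := by
    intro m hm
    have h1 : Nat.Coprime K q := by
      rw [hq]
      have : Nat.Coprime K (1 + K*(3100*p)) := by
        rw [Nat.coprime_add_mul_left_right]
        exact Nat.coprime_one_right K
      convert this using 2
      ring
    exact h1.coprime_dvd_left hm
  have c16 : ∀ m, m % 2 = 1 → Nat.Coprime m 16 := by
    intro m hm
    have h2 : Nat.Coprime m 2 := by
      rw [Nat.coprime_two_right]
      exact Nat.odd_iff.2 hm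
    exact Nat.Coprime.pow_right 4 h2
  have fin1 : ∀ m, m % 2 = 1 → m ∣ K → Nat.Coprime m (16*q) := fun m h1 h2 =>
    Nat.Coprime.mul_right (c16 m h1) (cK m h2)
  -- coprimality with `p`
  have cp : ∀ n r : ℕ, (∃ t, n + 0 = r + p*t) → Nat.Coprime r p → Nat.Coprime n p := by
    rintro n r ⟨t, ht⟩ hr
    rw [Nat.add_zero] at ht
    rw [ht]
    rwa [Nat.coprime_add_mul_left_left]
  have p5 : Nat.Coprime 5 p := by
    rw [hp, show 1 + 385*(N+6) = 1 + 5*(77*(N+6)) by ring, Nat.coprime_add_mul_left_right]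
    exact Nat.coprime_one_right 5
  have p7 : Nat.Coprime 7 p := by
    rw [hp, show 1 + 385*(N+6) = 1 + 7*(55*(N+6)) by ring, Nat.coprime_add_mul_left_right]
    exact Nat.coprime_one_right 7
  have p11 : Nat.Coprime 11 p := by
    rw [hp, show 1 + 385*(N+6) = 1 + 11*(35*(N+6)) by ring, Nat.coprime_add_mul_left_right]
    exact Nat.coprime_one_right 11
  have fin2 : ∀ n, n % 2 = 1 → Nat.Coprime n p → Nat.Coprime n (16*p) := fun n h1 h2 =>
    Nat.Coprime.mul_right (c16 n h1) h2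
  have hqb : q ≤ 3038001*p^5 := by
    have h1 : 2*p-3 ≤ 2*p := by omega
    have h2 : 2*p+3 ≤ 5*p := by omega
    have h3 : 2*p+5 ≤ 7*p := by omega
    have h4 : 14*p-3 ≤ 14*p := by omega
    have h5 : K ≤ (2*p)*((5*p)*((7*p)*(14*p))) := by
      rw [hK]
      exact Nat.mul_le_mul h1 (Nat.mul_le_mul h2 (Nat.mul_le_mul h3 h4))
    have h6 : p*K ≤ p*((2*p)*((5*p)*((7*p)*(14*p)))) := Nat.mul_le_mul_left _ h5
    have h7 : p*((2*p)*((5*p)*((7*p)*(14*p)))) = 980*p^5 := by ring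
    have h8 : 1 ≤ p^5 := Nat.one_le_pow _ _ (by omega)
    omega
  have hp3 : p = 385*N + 2311 := by rw [hp]; ring
  refine ⟨q, p, by omega, hp3, hqb,
    { hp := by omega
      hq := by omega
      m1 := fin1 _ (by omega) (by rw [hK]; exact Dvd.intro _ rfl)
      m2 := fin1 _ (by omega) (by rw [hK]; exact ⟨(2*p-3)*((2*p+5)*(14*p-3)), by ring⟩)
      m3 := fin1 _ (by omega) (by rw [hK]; exact ⟨(2*p-3)*((2*p+3)*(14*p-3)), by ring⟩)
      m4 := fin1 _ (by omega) (by rw [hK]; exact ⟨(2*p-3)*((2*p+3)*(2*p+5)), by ring⟩)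
      n1 := ?_
      n2 := fin2 _ (by omega) (cp _ 5 ⟨6200*K, by rw [hq]; ring⟩ p5)
      n3 := fin2 _ (by omega) (cp _ 7 ⟨6200*K, by rw [hq]; ring⟩ p7)
      n4 := fin2 _ (by omega) (cp _ 11 ⟨43400*K, by
        have : 14*q = 14 + p*(43400*K) := by rw [hq]; ring
        omega⟩ p11) }⟩
  -- `2 q - 3 = p * t - 1`
  refine fin2 _ (by omega) ?_
  have h1 : 2*q - 3 + 1 = p*(6200*K) := by
    have : 2*q = 2 + p*(6200*K) := by rw [hq]; ring
    omega
  have h2 : Nat.Coprime (2*q-3) (2*q-3+1) := by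
    rw [Nat.coprime_self_add_right]
    exact Nat.coprime_one_right _
  exact h2.coprime_dvd_right ⟨6200*K, h1⟩

end Y643.SL
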