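import Mathlib
import Pool.Agent.H43R3.SumG.Graph
import Pool.Agent.Y643.SL.Arith

/-!
Every sum labelling of the disjoint union of `GG q`, `GG p` and one isolated vertex has only labels
at least `p`, for suitable parameters; and there is such a labelling.
-/

set_option autoImplicit false

namespace Y643.SL

open H43R3.SumG

/-- `f` labels the disjoint union of `G₁`, `G₂` and `r` isolated vertices. -/
def LabU {V W : Type} (G₁ : SimpleGraph V) (G₂ : SimpleGraph W) (r : ℕ)
    (f : (V ⊕ W) ⊕ Fin r → ℕ) : Prop :=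
  Function.Injective f ∧ (∀ x, 0 < f x) ∧
    ∀ x y, x ≠ y →
      (((∃ u v, x = Sum.inl (Sum.inl u) ∧ y = Sum.inl (Sum.inl v) ∧ G₁.Adj u v) ∨
        (∃ u v, x = Sum.inl (Sum.inr u) ∧ y = Sum.inl (Sum.inr v) ∧ G₂.Adj u v)) ↔
        ∃ z, f x + f y = f z)

theorem integral {q : ℕ} (hq : 10 ≤ q) {c : ℚ} (hc : 0 < c) {f1 f2 : ℕ}
    (e1 : (f1:ℚ) = c * ((2:ℕ):ℚ)) (e2 : (f2:ℚ) = c * ((2*q-3 : ℕ):ℚ)) :
    ∃ a : ℕ, 0 < a ∧ c = a := by
  have e3 : c = (((f2:ℤ) - ((q:ℤ)-2) * (f1:ℤ) : ℤ) : ℚ) := by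
    push_cast
    rw [e1, e2, Nat.cast_sub (by omega)]
    push_cast
    ring
  obtain ⟨k, hk⟩ : ∃ k : ℤ, k = (f2:ℤ) - ((q:ℤ)-2) * (f1:ℤ) := ⟨_, rfl⟩
  rw [← hk] at e3
  have hk0 : 0 < k := by
    rw [e3] at hc
    exact_mod_cast hc
  refine ⟨k.toNat, by omega, ?_⟩
  rw [e3]
  have : ((k.toNat : ℕ) : ℤ) = k := Int.toNat_of_nonneg hk0.le
  exact_mod_cast this.symm

theorem labU_large {q p : ℕ} (h : Cop q p) {f : (VV q ⊕ VV p) ⊕ Fin 1 → ℕ}
    (hlab : LabU (GG q) (GG p) 1 f) : ∀ x, p ≤ f x := by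
  classical
  obtain ⟨finj, fpos, hf⟩ := hlab
  have hp := h.hp
  have hq := h.hq
  have h1 : 10 ≤ q := by omega
  have h2 : 10 ≤ p := by omega
  obtain ⟨gA, hgA⟩ : ∃ g : ℕ → ℚ, ∀ s (h : inS q s), g s = (f (Sum.inl (Sum.inl (mkv h1 h))) : ℚ) :=
    ⟨fun s => if h : inS q s then (f (Sum.inl (Sum.inl (mkv h1 h))) : ℚ) else 0,
      fun s h => dif_pos h⟩
  obtain ⟨gB, hgB⟩ : ∃ g : ℕ → ℚ, ∀ s (h : inS p s), g s = (f (Sum.inl (Sum.inr (mkv h2 h))) : ℚ) :=
    ⟨fun s => if h : inS p s then (f (Sum.inl (Sum.inr (mkv h2 h))) : ℚ) else 0,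
      fun s h => dif_pos h⟩
  have sumL : ∀ x y, ((f x : ℚ) + f y ∈ Set.range (fun x => (f x : ℚ))) ↔ ∃ z, f x + f y = f z := by
    intro x y
    constructor
    · rintro ⟨z, hz⟩
      refine ⟨z, ?_⟩
      have : (f z : ℚ) = f x + f y := hz
      exact_mod_cast this.symm
    · rintro ⟨z, hz⟩
      refine ⟨z, ?_⟩
      show (f z : ℚ) = f x + f y
      rw [← hz]; push_cast; rfl
  have mkA : ∀ {s s' : ℕ} (h : inS q s) (h' : inS q s'), mkv h1 h = mkv h1 h' → s = s' := by
    intro s s' h h' heq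
    exact congrArg (fun a => a.1.1) heq
  have mkB : ∀ {s s' : ℕ} (h : inS p s) (h' : inS p s'), mkv h2 h = mkv h2 h' → s = s' := by
    intro s s' h h' heq
    exact congrArg (fun a => a.1.1) heq
  have key : ∃ cA cB : ℚ, Out q p gA gB (f (Sum.inr 0) : ℚ) (Set.range (fun x => (f x : ℚ))) cA cB := by
    refine two_sides hp hq ?_ ?_ ?_ ?_ ?_ ?_ ?_ ?_ ?_ ?_ ?_
    · intro w
      constructor
      · rintro ⟨x, rfl⟩
        rcases x with (⟨⟨s, hs⟩, hs'⟩ | ⟨⟨s, hs⟩, hs'⟩) | i
        · left; exact ⟨s, hs', (hgA s hs').symm⟩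
        · right; left; exact ⟨s, hs', (hgB s hs').symm⟩
        · right; right; rw [Subsingleton.elim i 0]
      · rintro (⟨s, hs, rfl⟩ | ⟨s, hs, rfl⟩ | rfl)
        · exact ⟨_, (hgA s hs).symm⟩
        · exact ⟨_, (hgB s hs).symm⟩
        · exact ⟨_, rfl⟩
    · intro s hs
      rw [hgA s hs]; exact_mod_cast fpos _
    · intro s hs
      rw [hgB s hs]; exact_mod_cast fpos _
    · intro s s' hs hs' heq
      rw [hgA s hs, hgA s' hs'] at heq
      have h3 := finj (Nat.cast_injective heq)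
      exact mkA _ _ (Sum.inl.inj (Sum.inl.inj h3))
    · intro s s' hs hs' heq
      rw [hgB s hs, hgB s' hs'] at heq
      have h3 := finj (Nat.cast_injective heq)
      exact mkB _ _ (Sum.inr.inj (Sum.inl.inj h3))
    · intro s s' hs hs' heq
      rw [hgA s hs, hgB s' hs'] at heq
      have h3 := finj (Nat.cast_injective heq)
      exact absurd h3 (by simp)
    · intro s s' hs hs' hne
      rw [hgA s hs, hgA s' hs', sumL, ← hf _ _ (by
        intro h; exact hne (mkA hs hs' (Sum.inl.inj (Sum.inl.inj h))))]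
      constructor
      · rintro (⟨u, v, hu, hv, huv⟩ | ⟨u, v, hu, hv, huv⟩)
        · have hu' := Sum.inl.inj (Sum.inl.inj hu)
          have hv' := Sum.inl.inj (Sum.inl.inj hv)
          subst hu'; subst hv'
          exact huv.2
        · exact absurd hu (by simp)
      · intro h
        left
        exact ⟨_, _, rfl, rfl, fun h => hne (mkA hs hs' h), h⟩
    · intro s s' hs hs' hne
      rw [hgB s hs, hgB s' hs', sumL, ← hf _ _ (by
        intro h; exact hne (mkB hs hs' (Sum.inr.inj (Sum.inl.inj h))))]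
      constructor
      · rintro (⟨u, v, hu, hv, huv⟩ | ⟨u, v, hu, hv, huv⟩)
        · exact absurd hu (by simp)
        · have hu' := Sum.inr.inj (Sum.inl.inj hu)
          have hv' := Sum.inr.inj (Sum.inl.inj hv)
          subst hu'; subst hv'
          exact huv.2
      · intro h
        right
        exact ⟨_, _, rfl, rfl, fun h => hne (mkB hs hs' h), h⟩
    · intro s s' hs hs'
      rw [hgA s hs, hgB s' hs', sumL, ← hf _ _ (by simp)]
      rintro (⟨u, v, hu, hv, huv⟩ | ⟨u, v, hu, hv, huv⟩)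
      · exact absurd hv (by simp)
      · exact absurd hu (by simp)
    · intro s hs
      rw [hgA s hs, sumL, ← hf _ _ (by simp)]
      rintro (⟨u, v, hu, hv, huv⟩ | ⟨u, v, hu, hv, huv⟩)
      · exact absurd hu (by simp)
      · exact absurd hu (by simp)
    · intro s hs
      rw [hgB s hs, sumL, ← hf _ _ (by simp)]
      rintro (⟨u, v, hu, hv, huv⟩ | ⟨u, v, hu, hv, huv⟩)
      · exact absurd hu (by simp)
      · exact absurd hu (by simp)
  obtain ⟨cA, cB, O⟩ := key
  obtain ⟨a, ha, rfl⟩ : ∃ a : ℕ, 0 < a ∧ cA = a := by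
    obtain ⟨s, hs, e1⟩ := O.A2 2 (by unfold inS; omega)
    obtain ⟨s', hs', e2⟩ := O.A2 (2*q-3) (by unfold inS; omega)
    rw [hgA s hs] at e1
    rw [hgA s' hs'] at e2
    exact integral h1 O.hcA e1 e2
  obtain ⟨b, hb, rfl⟩ : ∃ b : ℕ, 0 < b ∧ cB = b := by
    obtain ⟨s, hs, e1⟩ := O.B2 2 (by unfold inS; omega)
    obtain ⟨s', hs', e2⟩ := O.B2 (2*p-3) (by unfold inS; omega)
    rw [hgB s hs] at e1
    rw [hgB s' hs'] at e2
    exact integral h2 O.hcB e1 e2
  obtain ⟨pa, pb, pz⟩ := large h ha hb O.K1 O.K2 O.K3 O.K4 O.TA O.TB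
  intro x
  rcases x with (⟨⟨s, hs⟩, hs'⟩ | ⟨⟨s, hs⟩, hs'⟩) | i
  · obtain ⟨t, ht, e, _⟩ := O.A1 s hs'
    rw [hgA s hs'] at e
    have e' : f (Sum.inl (Sum.inl (mkv h1 hs'))) = a * t := by exact_mod_cast e
    show p ≤ f (Sum.inl (Sum.inl (mkv h1 hs')))
    rw [e']
    have ht1 : 1 ≤ t := by unfold inS at ht; omega
    exact pa.trans (Nat.le_mul_of_pos_right _ ht1)
  · obtain ⟨t, ht, e, _⟩ := O.B1 s hs'
    rw [hgB s hs'] at e
    have e' : f (Sum.inl (Sum.inr (mkv h2 hs'))) = b * t := by exact_mod_cast e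
    show p ≤ f (Sum.inl (Sum.inr (mkv h2 hs')))
    rw [e']
    have ht1 : 1 ≤ t := by unfold inS at ht; omega
    exact pb.trans (Nat.le_mul_of_pos_right _ ht1)
  · rw [Subsingleton.elim i 0]
    exact_mod_cast pz

/-- the labels of the two sides and of the isolated vertex -/
def lab (q p : ℕ) : (VV q ⊕ VV p) ⊕ Fin 1 → ℕ
  | Sum.inl (Sum.inl a) => (2*p-3) * a.1.1
  | Sum.inl (Sum.inr b) => 16*q * b.1.1
  | Sum.inr _ => 16*q * (16*p)

theorem labU_exists {q p : ℕ} (h : Cop q p) : LabU (GG q) (GG p) 1 (lab q p) := by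
  have hp := h.hp
  have hq := h.hq
  have h1 : 10 ≤ q := by omega
  have h2 : 10 ≤ p := by omega
  obtain ⟨m, hm⟩ : ∃ m, m = 2*p-3 := ⟨_, rfl⟩
  obtain ⟨Q, hQ⟩ : ∃ Q, Q = 16*q := ⟨_, rfl⟩
  have hcop : Nat.Coprime m Q := by rw [hm, hQ]; exact h.m1
  have hm0 : 0 < m := by omega
  have hQ0 : 0 < Q := by omega
  have lA : ∀ a : VV q, lab q p (Sum.inl (Sum.inl a)) = m * a.1.1 := by
    intro a; rw [hm]; rfl
  have lB : ∀ b : VV p, lab q p (Sum.inl (Sum.inr b)) = Q * b.1.1 := by
    intro b; rw [hQ]; rfl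
  have lZ : ∀ i : Fin 1, lab q p (Sum.inr i) = Q * (16*p) := by
    intro i; rw [hQ]; rfl
  have bA : ∀ a : VV q, 2 ≤ a.1.1 ∧ a.1.1 < Q := by
    rintro ⟨⟨s, hs⟩, hs'⟩
    simp only [inS] at hs'
    show 2 ≤ s ∧ s < Q
    omega
  have bB : ∀ b : VV p, 2 ≤ b.1.1 ∧ b.1.1 < 16*p := by
    rintro ⟨⟨s, hs⟩, hs'⟩
    simp only [inS] at hs'
    show 2 ≤ s ∧ s < 16*p
    omega
  -- a multiple of `Q` of the form `m * s` has `s` divisible by `Q`
  have dv : ∀ s t : ℕ, m * s = Q * t → Q ∣ s := by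
    intro s t hst
    have : Q ∣ m * s := by rw [hst]; exact Dvd.intro _ rfl
    exact hcop.symm.dvd_of_dvd_mul_left this
  have no : ∀ s t : ℕ, 0 < s → s < Q → m * s ≠ Q * t := by
    intro s t hs hs2 hst
    have := Nat.le_of_dvd hs (dv s t hst)
    omega
  -- the largest label
  have top : ∀ w, lab q p w ≤ Q * (16*p) := by
    rintro ((a | b) | i)
    · rw [lA]
      have := bA a
      have h3 : m * a.1.1 ≤ (16*p) * Q := Nat.mul_le_mul (by omega) this.2.le
      rwa [Nat.mul_comm (16*p) Q] at h3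
    · rw [lB]
      exact Nat.mul_le_mul_left _ (bB b).2.le
    · rw [lZ]
  have noZ : ∀ x : ℕ, 0 < x → ¬ ∃ w, Q * (16*p) + x = lab q p w := by
    rintro x hx ⟨w, hw⟩
    have := top w
    omega
  -- sums of two labels of the side `q`
  have AA : ∀ a b : VV q, (∃ w, m * a.1.1 + m * b.1.1 = lab q p w) ↔ inT q (a.1.1 + b.1.1) := by
    intro a b
    have ha := bA a
    have hb := bA b
    rw [← Nat.mul_add]
    constructor
    · rintro ⟨(w | w) | w, hw⟩
      · rw [lA] at hw
        have h3 := Nat.eq_of_mul_eq_mul_left hm0 hw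
        left
        rw [h3]; exact w.2
      · rw [lB] at hw
        obtain ⟨t, ht⟩ := dv _ _ hw
        have h3 : t < 2 := by
          by_contra hcon
          have : Q * 2 ≤ Q * t := Nat.mul_le_mul_left _ (by omega)
          omega
        have h4 : t ≠ 0 := by rintro rfl; omega
        have h5 : t = 1 := by omega
        subst h5
        right
        omega
      · rw [lZ] at hw
        exfalso
        obtain ⟨t, ht⟩ := dv _ _ hw
        have h3 : t < 2 := by
          by_contra hcon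
          have : Q * 2 ≤ Q * t := Nat.mul_le_mul_left _ (by omega)
          omega
        have h4 : t ≠ 0 := by rintro rfl; omega
        have h5 : t = 1 := by omega
        subst h5
        rw [ht, Nat.mul_one, Nat.mul_comm m Q] at hw
        have := Nat.eq_of_mul_eq_mul_left hQ0 hw
        omega
    · rintro (h3 | h3)
      · exact ⟨Sum.inl (Sum.inl (mkv h1 h3)), by rw [lA]; rfl⟩
      · have h4 : inS p m := by unfold inS; omega
        refine ⟨Sum.inl (Sum.inr (mkv h2 h4)), ?_⟩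
        rw [lB, h3, ← hQ, Nat.mul_comm m Q]
        rfl
  have BB : ∀ a b : VV p, (∃ w, Q * a.1.1 + Q * b.1.1 = lab q p w) ↔ inT p (a.1.1 + b.1.1) := by
    intro a b
    have ha := bB a
    have hb := bB b
    rw [← Nat.mul_add]
    constructor
    · rintro ⟨(w | w) | w, hw⟩
      · rw [lA] at hw
        have hw2 := bA w
        exact (no _ _ (by omega) hw2.2 hw.symm).elim
      · rw [lB] at hw
        have h3 := Nat.eq_of_mul_eq_mul_left hQ0 hw
        left
        rw [h3]; exact w.2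
      · rw [lZ] at hw
        have h3 := Nat.eq_of_mul_eq_mul_left hQ0 hw
        right
        exact h3
    · rintro (h3 | h3)
      · exact ⟨Sum.inl (Sum.inr (mkv h2 h3)), by rw [lB]; rfl⟩
      · exact ⟨Sum.inr 0, by rw [lZ, h3]⟩
  have AB : ∀ (a : VV q) (b : VV p), ¬ ∃ w, m * a.1.1 + Q * b.1.1 = lab q p w := by
    intro a b
    have ha := bA a
    have hb := bB b
    rintro ⟨(w | w) | w, hw⟩
    · rw [lA] at hw
      have hw2 := bA w
      have hlt : a.1.1 < w.1.1 := by
        by_contra hcon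
        have h3 : m * w.1.1 ≤ m * a.1.1 := Nat.mul_le_mul_left _ (by omega)
        have h4 : 0 < Q * b.1.1 := Nat.mul_pos hQ0 (by omega)
        omega
      obtain ⟨d, hd⟩ : ∃ d, w.1.1 = a.1.1 + d := ⟨w.1.1 - a.1.1, by omega⟩
      rw [hd, Nat.mul_add] at hw
      exact no d b.1.1 (by omega) (by omega) (by omega)
    · rw [lB] at hw
      have hlt : b.1.1 < w.1.1 := by
        by_contra hcon
        have h3 : Q * w.1.1 ≤ Q * b.1.1 := Nat.mul_le_mul_left _ (by omega)
        have h4 : 0 < m * a.1.1 := Nat.mul_pos hm0 (by omega)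
        omega
      obtain ⟨d, hd⟩ : ∃ d, w.1.1 = b.1.1 + d := ⟨w.1.1 - b.1.1, by omega⟩
      rw [hd, Nat.mul_add] at hw
      exact no a.1.1 d (by omega) (by omega) (by omega)
    · rw [lZ] at hw
      obtain ⟨d, hd⟩ : ∃ d, 16*p = b.1.1 + d := ⟨16*p - b.1.1, by omega⟩
      have hd2 : Q * (16*p) = Q * b.1.1 + Q * d := by
        have h5 : Q * (b.1.1 + d) = Q * b.1.1 + Q * d := Nat.mul_add _ _ _
        rw [← h5]
        exact congrArg (fun t => Q * t) hd
      exact no a.1.1 d (by omega) (by omega) (by omega)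
  refine ⟨?_, ?_, ?_⟩
  · rintro ((a | a) | a) ((b | b) | b) heq
    · rw [lA, lA] at heq
      have := Nat.eq_of_mul_eq_mul_left hm0 heq
      rw [Subtype.ext (Fin.ext this)]
    · rw [lA, lB] at heq
      exact (no _ _ (by have := bA a; omega) (bA a).2 heq).elim
    · rw [lA, lZ] at heq
      exact (no _ _ (by have := bA a; omega) (bA a).2 heq).elim
    · rw [lB, lA] at heq
      exact (no _ _ (by have := bA b; omega) (bA b).2 heq.symm).elim
    · rw [lB, lB] at heq
      have := Nat.eq_of_mul_eq_mul_left hQ0 heq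
      rw [Subtype.ext (Fin.ext this)]
    · rw [lB, lZ] at heq
      have := Nat.eq_of_mul_eq_mul_left hQ0 heq
      have := bB a
      omega
    · rw [lZ, lA] at heq
      exact (no _ _ (by have := bA b; omega) (bA b).2 heq.symm).elim
    · rw [lZ, lB] at heq
      have := Nat.eq_of_mul_eq_mul_left hQ0 heq
      have := bB b
      omega
    · rw [Subsingleton.elim a b]
  · rintro ((a | a) | a)
    · rw [lA]; exact Nat.mul_pos hm0 (by have := bA a; omega)
    · rw [lB]; exact Nat.mul_pos hQ0 (by have := bB a; omega)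
    · rw [lZ]; exact Nat.mul_pos hQ0 (by omega)
  · rintro ((a | a) | a) ((b | b) | b) hne
    · rw [lA, lA, AA]
      constructor
      · rintro (⟨u, v, hu, hv, huv⟩ | ⟨u, v, hu, hv, huv⟩)
        · have hu' := Sum.inl.inj (Sum.inl.inj hu)
          have hv' := Sum.inl.inj (Sum.inl.inj hv)
          subst hu'; subst hv'
          exact huv.2
        · exact absurd hu (by simp)
      · intro h3
        exact Or.inl ⟨a, b, rfl, rfl, fun h4 => hne (by rw [h4]), h3⟩
    · rw [lA, lB]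
      constructor
      · rintro (⟨u, v, hu, hv, huv⟩ | ⟨u, v, hu, hv, huv⟩)
        · exact absurd hv (by simp)
        · exact absurd hu (by simp)
      · intro h3
        exact (AB a b h3).elim
    · rw [lA, lZ, Nat.add_comm]
      constructor
      · rintro (⟨u, v, hu, hv, huv⟩ | ⟨u, v, hu, hv, huv⟩)
        · exact absurd hv (by simp)
        · exact absurd hv (by simp)
      · intro h3
        exact (noZ _ (Nat.mul_pos hm0 (by have := bA a; omega)) h3).elim
    · rw [lB, lA, Nat.add_comm]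
      constructor
      · rintro (⟨u, v, hu, hv, huv⟩ | ⟨u, v, hu, hv, huv⟩)
        · exact absurd hu (by simp)
        · exact absurd hv (by simp)
      · intro h3
        exact (AB b a h3).elim
    · rw [lB, lB, BB]
      constructor
      · rintro (⟨u, v, hu, hv, huv⟩ | ⟨u, v, hu, hv, huv⟩)
        · exact absurd hu (by simp)
        · have hu' := Sum.inr.inj (Sum.inl.inj hu)
          have hv' := Sum.inr.inj (Sum.inl.inj hv)
          subst hu'; subst hv'
          exact huv.2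
      · intro h3
        exact Or.inr ⟨a, b, rfl, rfl, fun h4 => hne (by rw [h4]), h3⟩
    · rw [lB, lZ, Nat.add_comm]
      constructor
      · rintro (⟨u, v, hu, hv, huv⟩ | ⟨u, v, hu, hv, huv⟩)
        · exact absurd hv (by simp)
        · exact absurd hv (by simp)
      · intro h3
        exact (noZ _ (Nat.mul_pos hQ0 (by have := bB a; omega)) h3).elim
    · rw [lZ, lA]
      constructor
      · rintro (⟨u, v, hu, hv, huv⟩ | ⟨u, v, hu, hv, huv⟩)
        · exact absurd hu (by simp)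
        · exact absurd hu (by simp)
      · intro h3
        exact (noZ _ (Nat.mul_pos hm0 (by have := bA b; omega)) h3).elim
    · rw [lZ, lB]
      constructor
      · rintro (⟨u, v, hu, hv, huv⟩ | ⟨u, v, hu, hv, huv⟩)
        · exact absurd hu (by simp)
        · exact absurd hu (by simp)
      · intro h3
        exact (noZ _ (Nat.mul_pos hQ0 (by have := bB b; omega)) h3).elim
    · exact absurd (by rw [Subsingleton.elim a b]) hne

end Y643.SL
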